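import Mathlib
import Pool.Agent.Helper292.SP.Lang

set_option autoImplicit false

/-!
# Facts about the forcing language
-/

open Cardinal Set

namespace Pool.Agent.N640.DS

open Pool.Agent.Helper292.SP

universe u v w

variable {P : Type u} [Preorder P]

theorem mem_fex {ι : Sort v} {φ : ι → Set P} {p : P} :
    p ∈ fex φ ↔ ∀ q ≤ p, ∃ r ≤ q, ∃ i, r ∈ φ i := by
  simp only [fex, fnot, fall, Set.mem_ofPred_eq, not_forall, not_not]
  constructor
  · intro h q hq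
    obtain ⟨i, r, hr, h'⟩ := h q hq
    exact ⟨r, hr, i, h'⟩
  · intro h q hq
    obtain ⟨r, hr, i, h'⟩ := h q hq
    exact ⟨i, r, hr, h'⟩

theorem mem_fimp {φ ψ : Set P} {p : P} :
    p ∈ fimp φ ψ ↔ ∀ q ≤ p, q ∈ φ → ∃ r ≤ q, r ∈ ψ := by
  simp only [fimp, fnot, fand, Set.mem_ofPred_eq, not_and, not_forall, not_not]
  constructor
  · intro h q hq h'
    obtain ⟨r, hr, h''⟩ := h q hq h'
    exact ⟨r, hr, h''⟩
  · intro h q hq h'
    obtain ⟨r, hr, h''⟩ := h q hq h'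
    exact ⟨r, hr, h''⟩

theorem mem_fiff {φ ψ : Set P} {p : P} :
    p ∈ fiff φ ψ ↔ (∀ q ≤ p, q ∈ φ → ∃ r ≤ q, r ∈ ψ) ∧ (∀ q ≤ p, q ∈ ψ → ∃ r ≤ q, r ∈ φ) := by
  unfold fiff fand
  rw [Set.mem_ofPred_eq, mem_fimp, mem_fimp]

theorem mem_fand {φ ψ : Set P} {p : P} : p ∈ fand φ ψ ↔ p ∈ φ ∧ p ∈ ψ := Iff.rfl

theorem mem_fall {ι : Sort v} {φ : ι → Set P} {p : P} : p ∈ fall φ ↔ ∀ i, p ∈ φ i := Iff.rfl

theorem mem_fnot {φ : Set P} {p : P} : p ∈ fnot φ ↔ ∀ q ≤ p, q ∉ φ := Iff.rfl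

theorem mem_fground {h : Prop} {p : P} : p ∈ fground (P := P) h ↔ h := Iff.rfl

/-- The statement `φ` is preserved by passing to stronger conditions. -/
def Down (φ : Set P) : Prop := ∀ p ∈ φ, ∀ q ≤ p, q ∈ φ

theorem down_fnot (φ : Set P) : Down (fnot φ) :=
  fun _ hp _ hq r hr => hp r (hr.trans hq)

theorem down_fand {φ ψ : Set P} (h : Down φ) (h' : Down ψ) : Down (fand φ ψ) :=
  fun _ hp _ hq => ⟨h _ hp.1 _ hq, h' _ hp.2 _ hq⟩

theorem down_fall {ι : Sort v} {φ : ι → Set P} (h : ∀ i, Down (φ i)) : Down (fall φ) :=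
  fun _ hp _ hq i => h i _ (hp i) _ hq

theorem down_fex {ι : Sort v} (φ : ι → Set P) : Down (fex φ) := down_fnot _

theorem down_fimp (φ ψ : Set P) : Down (fimp φ ψ) := down_fnot _

theorem down_fiff (φ ψ : Set P) : Down (fiff φ ψ) := down_fand (down_fimp _ _) (down_fimp _ _)

theorem down_fground (h : Prop) : Down (fground (P := P) h) := fun _ hp _ _ => hp

theorem down_meets (N : Set P) : Down (meets N) :=
  fun _ hp _ hq r hr => hp r (hr.trans hq)

theorem meets_of_le {N : Set P} {p s : P} (hs : s ∈ N) (h : p ≤ s) : p ∈ meets N :=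
  fun q hq => ⟨q, le_rfl, s, hs, hq.trans h⟩

theorem meets_of_dense {N : Set P} {p : P} (h : ∀ q ≤ p, ∃ r ≤ q, r ∈ meets N) : p ∈ meets N := by
  intro q hq
  obtain ⟨r, hr, hr'⟩ := h q hq
  obtain ⟨s, hs, t, ht, hst⟩ := hr' r le_rfl
  exact ⟨s, hs.trans hr, t, ht, hst⟩

/-- for a set closed downwards -/
theorem exists_of_meets {N : Set P} (hN : Down N) {p : P} (h : p ∈ meets N) :
    ∃ q ≤ p, q ∈ N := by
  obtain ⟨r, hr, s, hs, hle⟩ := h p le_rfl
  exact ⟨r, hr, hN s hs r hle⟩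

/-- Either `p` or some stronger condition decides whether the generic filter meets `N`. -/
theorem decide_meets (N : Set P) (p : P) : ∃ q ≤ p, q ∈ meets N ∨ q ∈ fnot (meets N) := by
  by_cases h : p ∈ fnot (meets N)
  · exact ⟨p, le_rfl, Or.inr h⟩
  · simp only [mem_fnot, not_forall, not_not] at h
    obtain ⟨q, hq, h⟩ := h
    exact ⟨q, hq, Or.inl h⟩

/-- Every set of conditions has a countable subset which is predense in it, if every uncountable
family of conditions has two compatible members. -/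
theorem exists_predense
    (hccc : ∀ A : Set P, (∀ p ∈ A, ∀ q ∈ A, p ≠ q → ¬ ∃ r, r ≤ p ∧ r ≤ q) → A.Countable)
    (D : Set P) : ∃ A ⊆ D, A.Countable ∧ ∀ d ∈ D, ∃ a ∈ A, ∃ r, r ≤ d ∧ r ≤ a := by
  obtain ⟨A, hA⟩ : ∃ A : Set P, Maximal (fun A : Set P => A ⊆ D ∧
      ∀ p ∈ A, ∀ q ∈ A, p ≠ q → ¬ ∃ r, r ≤ p ∧ r ≤ q) A := by
    apply zorn_subset
    intro c hc1 hc2
    refine ⟨⋃₀ c, ⟨?_, ?_⟩, ?_⟩
    · exact sUnion_subset fun s hs => (hc1 hs).1
    · rintro i ⟨s, hs, his⟩ j ⟨s', hs', hjs'⟩ hij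
      rcases hc2.total hs hs' with h | h
      · exact (hc1 hs').2 i (h his) j hjs' hij
      · exact (hc1 hs).2 i his j (h hjs') hij
    · intro s hs
      exact subset_sUnion_of_mem hs
  refine ⟨A, hA.1.1, hccc A hA.1.2, fun d hd => ?_⟩
  by_contra hcon
  push Not at hcon
  have h1 : insert d A ⊆ A := by
    apply hA.2 (y := insert d A)
    · refine ⟨insert_subset hd hA.1.1, ?_⟩
      rintro a (rfl | ha) b (rfl | hb) hab ⟨r, hr, hr'⟩
      · exact hab rfl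
      · exact hcon b hb r hr hr'
      · exact hcon a ha r hr' hr
      · exact hA.1.2 a ha b hb hab ⟨r, hr, hr'⟩
    · exact subset_insert _ _
  exact hcon d (h1 (mem_insert _ _)) d le_rfl le_rfl

end Pool.Agent.N640.DS
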