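import Mathlib
import Pool.Agent.Helper292.SP.Lang

set_option autoImplicit false

/-!
# The principle, about actual objects and in the forcing language
-/

open Cardinal Set

namespace Pool.Agent.N640.DS

open Pool.Agent.Helper292.SP (fnot fand fall fimp fiff fex fground meets IsFun)

/-- The finite sequence `s` of bits is an initial segment of the characteristic function of `y`. -/
def Begins (s : List Bool) (y : ℕ → Prop) : Prop :=
  ∀ i : Fin s.length, (y i ↔ s.get i = true)

/-- `W n` codes an open subset of the square of the Cantor space: the union of the products of the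
cones of `u` and `v`, for `W n u v`. The pair `(y, z)` belongs to it. -/
def InOpen (W : ℕ → List Bool → List Bool → Prop) (n : ℕ) (y z : ℕ → Prop) : Prop :=
  ∃ u v, W n u v ∧ Begins u y ∧ Begins v z

/-- There are distinct points `x (ξ, i)` of the Cantor space (`ξ : A`, `i : Bool`) such that every
subset of the set of these points is a relative `G_δ`, and for no point-finite sequence of open
sets does the `c ξ η`-th one contain `(x (ξ, true), x (η, false))` for all `ξ` and `η`. -/
def Principle (A : Type) (c : A → A → ℕ) : Prop :=
  ∃ x : A × Bool → ℕ → Prop,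
    (∀ α β, α ≠ β → ∃ i, ¬ (x α i ↔ x β i)) ∧
    (∀ Y : A × Bool → Prop, ∃ U : ℕ → List Bool → Prop, ∀ α,
      (Y α ↔ ∀ n, ∃ s, U n s ∧ Begins s (x α))) ∧
    (∀ W : ℕ → List Bool → List Bool → Prop, ¬ ∀ ξ η : A,
      InOpen W (c ξ η) (x (ξ, true)) (x (η, false)) ∧
        ∃ m, ∀ n, m ≤ n → ¬ InOpen W n (x (ξ, true)) (x (η, false)))

section

variable {P : Type} [Preorder P]

/-- `Begins` in the forcing language. -/
def BeginsF (s : List Bool) (y : ℕ → Set P) : Set P :=
  fall fun i : Fin s.length => fiff (meets (y i)) (fground (s.get i = true))

/-- `InOpen` in the forcing language. -/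
def InOpenF (W : ℕ → List Bool → List Bool → Set P) (n : ℕ) (y z : ℕ → Set P) : Set P :=
  fex fun u => fex fun v => fand (meets (W n u v)) (fand (BeginsF u y) (BeginsF v z))

/-- `Principle` in the forcing language. -/
def PrincipleHolds (P : Type) [Preorder P] (A : Type) (c : A → A → ℕ) : Set P :=
  fex fun x : A × Bool → ℕ → Set P => fand
    (fall fun α => fall fun β => fall fun _ : α ≠ β =>
      fex fun i => fnot (fiff (meets (x α i)) (meets (x β i))))
    (fand
      (fall fun Y : A × Bool → Set P => fex fun U : ℕ → List Bool → Set P => fall fun α =>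
        fiff (meets (Y α)) (fall fun n => fex fun s => fand (meets (U n s)) (BeginsF s (x α))))
      (fall fun W : ℕ → List Bool → List Bool → Set P => fnot (fall fun ξ : A => fall fun η : A =>
        fand (InOpenF W (c ξ η) (x (ξ, true)) (x (η, false)))
          (fex fun m => fall fun n => fall fun _ : m ≤ n =>
            fnot (InOpenF W n (x (ξ, true)) (x (η, false)))))))

end

end Pool.Agent.N640.DS
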