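import Mathlib
import Pool.Agent.R610.Delta
import Pool.Agent.N640.DS.Base

set_option autoImplicit false

/-!
# The notion of forcing
-/

open Cardinal Set

namespace Pool.Agent.N640.DS

/-- The atoms of the conditions: `x α i b` says that the `i`-th bit of the `α`-th real is `b`,
`pos γ n s` says that the cone of `s` is contained in the `n`-th open set of the `γ`-th sequence,
and `neg γ α k n` says that the `α`-th real is not in this open set, for the `k`-th reason. -/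
inductive Atom (I Γ : Type) : Type
  | x (α : I) (i : ℕ) (b : Bool) : Atom I Γ
  | pos (γ : Γ) (n : ℕ) (s : List Bool) : Atom I Γ
  | neg (γ : Γ) (α : I) (k n : ℕ) : Atom I Γ

variable {I Γ : Type}

/-- The valid finite sets of atoms. -/
structure Valid (e : Γ → I → ℕ → Finset (Atom I Γ)) (v : Γ → I → ℕ → Bool)
    (p : Finset (Atom I Γ)) : Prop where
  f1 : ∀ α i b b', Atom.x α i b ∈ p → Atom.x α i b' ∈ p → b = b'
  v2 : ∀ γ α k n, Atom.neg γ α k n ∈ p → v γ α k = false ∧ e γ α k ⊆ p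
  v3 : ∀ γ α k n s, Atom.neg γ α k n ∈ p → Atom.pos γ n s ∈ p →
    ∃ (i : ℕ) (b : Bool), s[i]? = some b ∧ Atom.x α i (!b) ∈ p

/-- The conditions. -/
structure Cond (e : Γ → I → ℕ → Finset (Atom I Γ)) (v : Γ → I → ℕ → Bool) : Type where
  s : Finset (Atom I Γ)
  valid : Valid e v s

variable {e : Γ → I → ℕ → Finset (Atom I Γ)} {v : Γ → I → ℕ → Bool}

instance : Preorder (Cond e v) where
  le q p := p.s ⊆ q.s
  le_refl p := Finset.Subset.refl _
  le_trans _ _ _ h1 h2 := Finset.Subset.trans h2 h1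

theorem le_def {p q : Cond e v} : q ≤ p ↔ p.s ⊆ q.s := Iff.rfl

theorem Valid.empty : Valid e v ∅ := ⟨by simp, by simp, by simp⟩

instance : Nonempty (Cond e v) := ⟨⟨∅, Valid.empty⟩⟩

open Classical in
theorem Valid.union {p q : Finset (Atom I Γ)} (hp : Valid e v p) (hq : Valid e v q)
    (h1 : ∀ α i b b', Atom.x α i b ∈ p → Atom.x α i b' ∈ q → b = b')
    (h2 : ∀ γ α k n s, Atom.neg γ α k n ∈ p → Atom.pos γ n s ∈ q → Atom.pos γ n s ∈ p)
    (h3 : ∀ γ α k n s, Atom.neg γ α k n ∈ q → Atom.pos γ n s ∈ p → Atom.pos γ n s ∈ q) :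
    Valid e v (p ∪ q) := by
  refine ⟨?_, ?_, ?_⟩
  · intro α i b b' hb hb'
    rw [Finset.mem_union] at hb hb'
    rcases hb with hb | hb <;> rcases hb' with hb' | hb'
    · exact hp.f1 _ _ _ _ hb hb'
    · exact h1 _ _ _ _ hb hb'
    · exact (h1 _ _ _ _ hb' hb).symm
    · exact hq.f1 _ _ _ _ hb hb'
  · intro γ α k n h
    rw [Finset.mem_union] at h
    rcases h with h | h
    · exact ⟨(hp.v2 _ _ _ _ h).1, (hp.v2 _ _ _ _ h).2.trans Finset.subset_union_left⟩
    · exact ⟨(hq.v2 _ _ _ _ h).1, (hq.v2 _ _ _ _ h).2.trans Finset.subset_union_right⟩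
  · intro γ α k n s h h'
    rw [Finset.mem_union] at h h'
    have hP : Atom.neg γ α k n ∈ p → Atom.pos γ n s ∈ p → ∃ (i : ℕ) (b : Bool),
        s[i]? = some b ∧ Atom.x α i (!b) ∈ p ∪ q := by
      intro h h'
      obtain ⟨i, b, hib, hx⟩ := hp.v3 _ _ _ _ _ h h'
      exact ⟨i, b, hib, Finset.mem_union_left _ hx⟩
    have hQ : Atom.neg γ α k n ∈ q → Atom.pos γ n s ∈ q → ∃ (i : ℕ) (b : Bool),
        s[i]? = some b ∧ Atom.x α i (!b) ∈ p ∪ q := by
      intro h h'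
      obtain ⟨i, b, hib, hx⟩ := hq.v3 _ _ _ _ _ h h'
      exact ⟨i, b, hib, Finset.mem_union_right _ hx⟩
    rcases h with h | h <;> rcases h' with h' | h'
    · exact hP h h'
    · exact hP h (h2 _ _ _ _ _ h h')
    · exact hQ h (h3 _ _ _ _ _ h h')
    · exact hQ h h'

/-! ### Compatible conditions in uncountable families -/

/-- the location of an atom -/
def loc : Atom I Γ → (I × ℕ) ⊕ Γ
  | .x α i _ => .inl (α, i)
  | .pos γ _ _ => .inr γ
  | .neg γ _ _ _ => .inr γ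

/-- the atom does not start with `neg` -/
def Easy : Atom I Γ → Prop
  | .x _ _ _ => True
  | .pos _ _ _ => True
  | .neg _ _ _ _ => False

theorem countable_easy (R : Finset ((I × ℕ) ⊕ Γ)) : {a : Atom I Γ | loc a ∈ R ∧ Easy a}.Countable := by
  have h1 : {a : Atom I Γ | loc a ∈ R ∧ Easy a} ⊆
      ⋃ r ∈ R, {a : Atom I Γ | loc a = r ∧ Easy a} := by
    rintro a ⟨h1, h2⟩
    exact mem_iUnion₂.2 ⟨loc a, h1, rfl, h2⟩
  refine Countable.mono h1 (Countable.biUnion R.countable_toSet fun r _ => ?_)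
  rcases r with ⟨α, i⟩ | γ
  · refine Countable.mono ?_ (countable_range fun b : Bool => (Atom.x α i b : Atom I Γ))
    rintro (⟨α', i', b⟩ | ⟨γ, n, s⟩ | ⟨γ, α', k, n⟩) ⟨h, h'⟩
    · simp only [loc, Sum.inl.injEq, Prod.mk.injEq] at h
      obtain ⟨rfl, rfl⟩ := h
      exact ⟨b, rfl⟩
    · simp [loc] at h
    · simp [loc] at h
  · refine Countable.mono ?_
      (countable_range fun b : ℕ × List Bool => (Atom.pos γ b.1 b.2 : Atom I Γ))
    rintro (⟨α', i', b⟩ | ⟨γ, n, s⟩ | ⟨γ, α', k, n⟩) ⟨h, h'⟩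
    · simp [loc] at h
    · simp only [loc, Sum.inr.injEq] at h
      subst h
      exact ⟨(n, s), rfl⟩
    · exact h'.elim

theorem exists_fiber {ι C : Type*} {J : Set ι} (hJ : ¬ J.Countable) (f : ι → C) {T : Set C}
    (hT : T.Countable) (hf : ∀ i ∈ J, f i ∈ T) : ∃ c, ¬ {i | i ∈ J ∧ f i = c}.Countable := by
  by_contra hcon
  push Not at hcon
  apply hJ
  refine Countable.mono ?_ (hT.biUnion fun c _ => hcon c)
  intro i hi
  exact mem_iUnion₂.2 ⟨f i, hf i hi, hi, rfl⟩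

open Classical in
/-- The Knaster property. -/
theorem knaster {ι : Type*} (p : ι → Cond e v) {J : Set ι} (hJ : ¬ J.Countable) :
    ∃ J' ⊆ J, ¬ J'.Countable ∧ ∀ i ∈ J', ∀ j ∈ J', Valid e v ((p i).s ∪ (p j).s) := by
  let S : ι → Finset ((I × ℕ) ⊕ Γ) := fun i => (p i).s.image loc
  have hS : ∀ i a, a ∈ (p i).s → loc a ∈ S i := fun i a ha => Finset.mem_image_of_mem _ ha
  obtain ⟨n, hn⟩ := exists_fiber hJ (fun i => (S i).card) (T := univ) (to_countable _)
    (fun _ _ => mem_univ _)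
  obtain ⟨J1, R, h1, h2, h3, h4⟩ := Pool.Agent.R610.Delta.delta_card S n _ hn
    (fun i hi => hi.2.le)
  obtain ⟨c, hc⟩ := exists_fiber h2 (fun i => {a : Atom I Γ | a ∈ (p i).s ∧ loc a ∈ R ∧ Easy a})
    (T := {t | t.Finite ∧ t ⊆ {a : Atom I Γ | loc a ∈ R ∧ Easy a}})
    (Set.countable_setOf_finite_subset (countable_easy R))
    (fun i _ => ⟨(p i).s.finite_toSet.subset fun a ha => ha.1, fun a ha => ha.2⟩)
  refine ⟨_, fun i hi => (h1 hi.1).1, hc, ?_⟩
  intro i hi j hj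
  by_cases hij : i = j
  · subst hij
    rw [Finset.union_idempotent]
    exact (p i).valid
  have key : ∀ i ∈ J1, ∀ j ∈ J1, i ≠ j →
      ({a : Atom I Γ | a ∈ (p i).s ∧ loc a ∈ R ∧ Easy a} =
        {a : Atom I Γ | a ∈ (p j).s ∧ loc a ∈ R ∧ Easy a}) →
      ∀ a a' : Atom I Γ, a ∈ (p i).s → a' ∈ (p j).s → loc a = loc a' → Easy a' → a' ∈ (p i).s := by
    intro i hi j hj hij heq a a' ha ha' hl he
    have h5 : loc a' ∈ R := by
      refine h4 i hi j hj hij _ ?_ (hS j a' ha')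
      rw [← hl]
      exact hS i a ha
    have h6 : a' ∈ {a : Atom I Γ | a ∈ (p i).s ∧ loc a ∈ R ∧ Easy a} := by
      rw [heq]
      exact ⟨ha', h5, he⟩
    exact h6.1
  have heq : ({a : Atom I Γ | a ∈ (p i).s ∧ loc a ∈ R ∧ Easy a} =
        {a : Atom I Γ | a ∈ (p j).s ∧ loc a ∈ R ∧ Easy a}) := hi.2.trans hj.2.symm
  have k1 := key i hi.1 j hj.1 hij heq
  have k2 := key j hj.1 i hi.1 (Ne.symm hij) heq.symm
  refine Valid.union (p i).valid (p j).valid ?_ ?_ ?_
  · intro α i' b b' hb hb'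
    exact (p i).valid.f1 _ _ _ _ hb (k1 _ _ hb hb' rfl trivial)
  · intro γ α k n s h h'
    exact k1 _ _ h h' rfl trivial
  · intro γ α k n s h h'
    exact k2 _ _ h h' rfl trivial

theorem ccc (A : Set (Cond e v)) (hA : ∀ p ∈ A, ∀ q ∈ A, p ≠ q → ¬ ∃ r, r ≤ p ∧ r ≤ q) :
    A.Countable := by
  classical
  by_contra hcon
  obtain ⟨J', h1, h2, h3⟩ := knaster (fun p : Cond e v => p) hcon
  apply h2
  apply Set.Subsingleton.countable
  intro p hp q hq
  by_contra hne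
  exact hA p (h1 hp) q (h1 hq) hne ⟨⟨_, h3 p hp q hq⟩, Finset.subset_union_left,
    Finset.subset_union_right⟩

end Pool.Agent.N640.DS
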