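import Mathlib
import Pool.Agent.N640.DS.Poset
import Pool.Agent.N640.DS.Defs

set_option autoImplicit false

/-!
# The generic reals form a Q-set
-/

open Cardinal Set

namespace Pool.Agent.N640.DS

open Pool.Agent.Helper292.SP (fnot fand fall fimp fiff fex fground meets IsFun)

variable {I Γ : Type} {e : Γ → I → ℕ → Finset (Atom I Γ)} {v : Γ → I → ℕ → Bool}

/-- The name of the `α`-th real. -/
def X (e : Γ → I → ℕ → Finset (Atom I Γ)) (v : Γ → I → ℕ → Bool) (α : I) (i : ℕ) :
    Set (Cond e v) := {p | Atom.x α i true ∈ p.s}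

open Classical in
theorem Valid.addX {p : Finset (Atom I Γ)} (hp : Valid e v p) (α : I) (i : ℕ) (b : Bool)
    (h : Atom.x α i (!b) ∉ p) : Valid e v (insert (Atom.x α i b) p) := by
  have h0 : ∀ b', Atom.x α i b' ∈ p → b' = b := by
    intro b' hb'
    by_contra hne
    apply h
    have : (!b) = b' := by
      cases b <;> cases b' <;> simp_all
    rw [this]; exact hb'
  refine ⟨?_, ?_, ?_⟩
  · intro β j c c' hc hc'
    simp only [Finset.mem_insert, Atom.x.injEq] at hc hc'
    rcases hc with ⟨rfl, rfl, rfl⟩ | hc <;> rcases hc' with ⟨h1, h2, h3⟩ | hc'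
    · exact h3.symm
    · exact (h0 _ hc').symm
    · subst h1 h2 h3; exact h0 _ hc
    · exact hp.f1 _ _ _ _ hc hc'
  · intro γ β k n h
    simp only [Finset.mem_insert, reduceCtorEq, false_or] at h
    exact ⟨(hp.v2 _ _ _ _ h).1, (hp.v2 _ _ _ _ h).2.trans (Finset.subset_insert _ _)⟩
  · intro γ β k n s h h'
    simp only [Finset.mem_insert, reduceCtorEq, false_or] at h h'
    obtain ⟨j, c, hj, hx⟩ := hp.v3 _ _ _ _ _ h h'
    exact ⟨j, c, hj, Finset.mem_insert_of_mem hx⟩

theorem exists_addX (p : Cond e v) (α : I) (i : ℕ) (b : Bool) (h : Atom.x α i (!b) ∉ p.s) :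
    ∃ q ≤ p, Atom.x α i b ∈ q.s := by
  classical
  exact ⟨⟨_, p.valid.addX α i b h⟩, Finset.subset_insert _ _, Finset.mem_insert_self _ _⟩

theorem mem_meets_X {p : Cond e v} {α : I} {i : ℕ} :
    p ∈ meets (X e v α i) ↔ Atom.x α i true ∈ p.s := by
  constructor
  · intro h
    by_contra hcon
    obtain ⟨q, hq, hx⟩ := exists_addX p α i false (by simpa using hcon)
    obtain ⟨r, hr, s, hs, hrs⟩ := h q hq
    have h1 : Atom.x α i true ∈ r.s := hrs hs
    have h2 := r.valid.f1 _ _ _ _ h1 (hr hx)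
    simp at h2
  · intro h
    exact meets_of_le (N := X e v α i) h le_rfl

theorem mem_beginsF {p : Cond e v} {s : List Bool} {α : I} :
    p ∈ BeginsF s (X e v α) ↔ ∀ i b, s[i]? = some b → Atom.x α i b ∈ p.s := by
  constructor
  · intro h i b hib
    obtain ⟨hi, hb⟩ := List.getElem?_eq_some_iff.1 hib
    have h1 := h ⟨i, hi⟩
    rw [mem_fiff] at h1
    cases b with
    | true =>
      have h2 : p ∈ meets (X e v α i) := meets_of_dense fun q hq => h1.2 q hq (by
        rw [mem_fground]
        simpa using hb)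
      exact mem_meets_X.1 h2
    | false =>
      by_contra hcon
      obtain ⟨q, hq, hx⟩ := exists_addX p α i true (by simpa using hcon)
      obtain ⟨r, hr, h2⟩ := h1.1 q hq (mem_meets_X.2 hx)
      rw [mem_fground] at h2
      simp [hb] at h2
  · intro h i
    rw [mem_fiff]
    have h1 : Atom.x α i (s.get i) ∈ p.s := h i (s.get i) (by simp)
    constructor
    · intro q hq h2
      refine ⟨q, le_rfl, ?_⟩
      rw [mem_fground]
      exact q.valid.f1 _ _ _ _ (hq h1) (mem_meets_X.1 h2)
    · intro q hq h2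
      rw [mem_fground] at h2
      rw [h2] at h1
      exact ⟨q, le_rfl, mem_meets_X.2 (hq h1)⟩

/-- a bound for the bits in a condition -/
theorem exists_fresh (p : Finset (Atom I Γ)) : ∃ m : ℕ, ∀ α i b, Atom.x α i b ∈ p → i < m := by
  let f : Atom I Γ → ℕ := fun a => match a with
    | .x _ i _ => i
    | .pos _ _ _ => 0
    | .neg _ _ _ _ => 0
  refine ⟨p.sup f + 1, fun α i b h => ?_⟩
  have := Finset.le_sup (f := f) h
  exact Nat.lt_succ_of_le this

/-- a bound for the indices of the open sets in a condition -/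
theorem exists_freshPos (p : Finset (Atom I Γ)) :
    ∃ m : ℕ, ∀ γ s, Atom.pos γ m s ∉ p := by
  let f : Atom I Γ → ℕ := fun a => match a with
    | .x _ _ _ => 0
    | .pos _ n _ => n
    | .neg _ _ _ _ => 0
  refine ⟨p.sup f + 1, fun γ s h => ?_⟩
  have : p.sup f + 1 ≤ p.sup f := Finset.le_sup (f := f) h
  omega

/-- The generic reals are distinct. -/
theorem distinct (p : Cond e v) (α β : I) (h : α ≠ β) :
    p ∈ fex fun i => fnot (fiff (meets (X e v α i)) (meets (X e v β i))) := by
  rw [mem_fex]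
  intro q _
  obtain ⟨m, hm⟩ := exists_fresh q.s
  have h1 : Atom.x α m (!true) ∉ q.s := fun h => lt_irrefl _ (hm _ _ _ h)
  have h2 : Atom.x β m (!false) ∉ q.s := fun h => lt_irrefl _ (hm _ _ _ h)
  classical
  have h3 := q.valid.addX α m true h1
  have h4 := h3.addX β m false (by
    rw [Finset.mem_insert, not_or]
    refine ⟨?_, h2⟩
    intro h5
    simp only [Atom.x.injEq] at h5
    exact h h5.1.symm)
  refine ⟨⟨_, h4⟩, ?_, m, ?_⟩
  · rw [le_def]
    exact (Finset.subset_insert _ _).trans (Finset.subset_insert _ _)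
  · rw [mem_fnot]
    intro r hr hcon
    rw [mem_fiff] at hcon
    have h5 : Atom.x α m true ∈ r.s := hr (by simp)
    have h6 : Atom.x β m false ∈ r.s := hr (by simp)
    obtain ⟨t, ht, h7⟩ := hcon.1 r le_rfl (mem_meets_X.2 h5)
    have h8 := t.valid.f1 _ _ _ _ (mem_meets_X.1 h7) (ht h6)
    simp at h8

/-- the owner of an atom -/
def own (α : I) : Atom I Γ → I
  | .x _ _ _ => α
  | .pos _ _ _ => α
  | .neg _ β _ _ => β

/-- If `r` does not say that the `α`-th real avoids some open set of the `γ`-th sequence, then it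
can be put into each of them. -/
theorem extend_pos (r : Cond e v) (γ : Γ) (α : I) (n : ℕ)
    (hno : ∀ k m, Atom.neg γ α k m ∉ r.s) :
    ∃ q ≤ r, ∃ s : List Bool, Atom.pos γ n s ∈ q.s ∧
      ∀ i b, s[i]? = some b → Atom.x α i b ∈ q.s := by
  classical
  obtain ⟨i0, hi0⟩ := exists_fresh r.s
  let g : ℕ → Bool := fun i => decide (Atom.x α i true ∈ r.s)
  let s : List Bool := (List.range (i0 + 1)).map g
  let S : Finset I := (r.s.image (own α)).erase α
  let F1 : Finset (Atom I Γ) := (Finset.range (i0 + 1)).image fun i => Atom.x α i (g i)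
  let F2 : Finset (Atom I Γ) := S.image fun β => Atom.x β i0 true
  let q : Finset (Atom I Γ) := insert (Atom.pos γ n s) (r.s ∪ F1 ∪ F2)
  have hg : g i0 = false := by
    simp only [g, decide_eq_false_iff_not]
    exact fun h => lt_irrefl _ (hi0 _ _ _ h)
  have hgr : ∀ i b, Atom.x α i b ∈ r.s → b = g i := by
    intro i b h
    cases b with
    | true => simp [g, h]
    | false =>
      symm
      simp only [g, decide_eq_false_iff_not]
      intro h'
      have := r.valid.f1 _ _ _ _ h h'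
      simp at this
  have hS : ∀ γ' β k m, Atom.neg γ' β k m ∈ r.s → β ≠ α → β ∈ S := by
    intro γ' β k m h hne
    exact Finset.mem_erase.2 ⟨hne, Finset.mem_image.2 ⟨_, h, rfl⟩⟩
  have hsub : r.s ⊆ q := by
    intro a ha
    simp only [q, Finset.mem_insert, Finset.mem_union]
    exact Or.inr (Or.inl (Or.inl ha))
  have hx : ∀ β i b, Atom.x β i b ∈ q ↔ Atom.x β i b ∈ r.s ∨ (β = α ∧ i < i0 + 1 ∧ b = g i) ∨
      (β ∈ S ∧ i = i0 ∧ b = true) := by
    intro β i b
    simp only [q, F1, F2, Finset.mem_insert, Finset.mem_union, reduceCtorEq, false_or,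
      Finset.mem_image, Finset.mem_range, Atom.x.injEq, or_assoc]
    constructor
    · rintro (h | ⟨j, hj, rfl, rfl, rfl⟩ | ⟨β', hβ', rfl, rfl, rfl⟩)
      · exact Or.inl h
      · exact Or.inr (Or.inl ⟨rfl, hj, rfl⟩)
      · exact Or.inr (Or.inr ⟨hβ', rfl, rfl⟩)
    · rintro (h | ⟨rfl, h, rfl⟩ | ⟨h, rfl, rfl⟩)
      · exact Or.inl h
      · exact Or.inr (Or.inl ⟨i, h, rfl, rfl, rfl⟩)
      · exact Or.inr (Or.inr ⟨β, h, rfl, rfl, rfl⟩)
  have hneg : ∀ γ' β k m, Atom.neg γ' β k m ∈ q → Atom.neg γ' β k m ∈ r.s := by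
    intro γ' β k m h
    simpa only [q, F1, F2, Finset.mem_insert, Finset.mem_union, reduceCtorEq, false_or,
      Finset.mem_image, Finset.mem_range, and_false, exists_false, or_false] using h
  have hpos : ∀ γ' m t, Atom.pos γ' m t ∈ q → Atom.pos γ' m t ∈ r.s ∨
      (γ' = γ ∧ m = n ∧ t = s) := by
    intro γ' m t h
    simp only [q, F1, F2, Finset.mem_insert, Finset.mem_union, reduceCtorEq,
      Finset.mem_image, Finset.mem_range, and_false, exists_false, or_false, Atom.pos.injEq] at h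
    exact h.symm
  have hs : ∀ i b, s[i]? = some b ↔ i < i0 + 1 ∧ b = g i := by
    intro i b
    simp only [s, List.getElem?_map, Option.map_eq_some_iff]
    constructor
    · rintro ⟨a, ha, rfl⟩
      obtain ⟨h1, h2⟩ := List.getElem?_eq_some_iff.1 ha
      simp only [List.length_range] at h1
      simp only [List.getElem_range] at h2
      subst h2
      exact ⟨h1, rfl⟩
    · rintro ⟨h, rfl⟩
      exact ⟨i, by rw [List.getElem?_range h], rfl⟩
  have hq : Valid e v q := by
    refine ⟨?_, ?_, ?_⟩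
    · intro β i b b' h h'
      rw [hx] at h h'
      rcases h with h | ⟨h1, h2, h3⟩ | ⟨h1, h2, h3⟩ <;>
        rcases h' with h' | ⟨h1', h2', h3'⟩ | ⟨h1', h2', h3'⟩
      · exact r.valid.f1 _ _ _ _ h h'
      · subst h1'; rw [h3']; exact hgr _ _ h
      · subst h2'; exact absurd (hi0 _ _ _ h) (lt_irrefl _)
      · subst h1; rw [h3]; exact (hgr _ _ h').symm
      · rw [h3, h3']
      · subst h1; exact absurd rfl (Finset.mem_erase.1 h1').1
      · subst h2; exact absurd (hi0 _ _ _ h') (lt_irrefl _)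
      · subst h1'; exact absurd rfl (Finset.mem_erase.1 h1).1
      · rw [h3, h3']
    · intro γ' β k m h
      have h1 := r.valid.v2 _ _ _ _ (hneg _ _ _ _ h)
      exact ⟨h1.1, h1.2.trans hsub⟩
    · intro γ' β k m t h h'
      have h1 := hneg _ _ _ _ h
      rcases hpos _ _ _ h' with h2 | ⟨rfl, rfl, rfl⟩
      · obtain ⟨i, b, h3, h4⟩ := r.valid.v3 _ _ _ _ _ h1 h2
        exact ⟨i, b, h3, hsub h4⟩
      · have hne : β ≠ α := by
          rintro rfl
          exact hno _ _ h1
        refine ⟨i0, false, (hs _ _).2 ⟨Nat.lt_succ_self _, hg.symm⟩, ?_⟩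
        rw [hx]
        exact Or.inr (Or.inr ⟨hS _ _ _ _ h1 hne, rfl, rfl⟩)
  refine ⟨⟨q, hq⟩, hsub, s, Finset.mem_insert_self _ _, ?_⟩
  intro i b hib
  rw [hx]
  exact Or.inr (Or.inl ⟨rfl, (hs _ _).1 hib⟩)

open Classical in
/-- Names for subsets of `I` are decided by countable maximal antichains. -/
theorem exists_antichain (Y : I → Set (Cond e v)) (α : I) :
    ∃ f : ℕ → Cond e v, (∀ k, f k ∈ meets (Y α) ∨ f k ∈ fnot (meets (Y α))) ∧
      ∀ p : Cond e v, ∃ r ≤ p, ∃ k, r ≤ f k := by
  obtain ⟨A, hA, hc, hd⟩ := exists_predense (P := Cond e v) ccc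
    {q | q ∈ meets (Y α) ∨ q ∈ fnot (meets (Y α))}
  have hden : ∀ p : Cond e v, ∃ r ≤ p, ∃ a ∈ A, r ≤ a := by
    intro p
    obtain ⟨q, hq, h⟩ := decide_meets (Y α) p
    obtain ⟨a, ha, r, hr, hr'⟩ := hd q h
    exact ⟨r, hr.trans hq, a, ha, hr'⟩
  obtain ⟨r, _, a, ha, _⟩ := hden (Classical.choice inferInstance)
  obtain ⟨f, hf⟩ := hc.exists_eq_range ⟨a, ha⟩
  refine ⟨f, fun k => hA (by rw [hf]; exact mem_range_self k), fun p => ?_⟩
  obtain ⟨r, hr, a, ha, hra⟩ := hden p
  rw [hf] at ha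
  obtain ⟨k, rfl⟩ := ha
  exact ⟨r, hr, k, hra⟩

open Classical in
theorem qset (huniv : ∀ (e' : I → ℕ → Finset (Atom I Γ)) (v' : I → ℕ → Bool),
      ∃ γ, e γ = e' ∧ v γ = v')
    (Y : I → Set (Cond e v)) :
    ∃ U : ℕ → List Bool → Set (Cond e v), ∀ p : Cond e v, p ∈ fall fun α =>
      fiff (meets (Y α)) (fall fun n => fex fun s =>
        fand (meets (U n s)) (BeginsF s (X e v α))) := by
  choose f hf hf' using exists_antichain Y
  obtain ⟨γ, hγ, hγ'⟩ := huniv (fun α k => (f α k).s) (fun α k => decide (f α k ∈ meets (Y α)))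
  refine ⟨fun n s => {p | Atom.pos γ n s ∈ p.s}, ?_⟩
  intro p α
  rw [mem_fiff]
  constructor
  · intro q _ hq
    refine ⟨q, le_rfl, ?_⟩
    intro n
    rw [mem_fex]
    intro q' hq'
    have hno : ∀ k m, Atom.neg γ α k m ∉ q'.s := by
      intro k m h
      obtain ⟨h1, h2⟩ := q'.valid.v2 _ _ _ _ h
      rw [hγ'] at h1
      rw [hγ] at h2
      simp only [decide_eq_false_iff_not] at h1
      rcases hf α k with h3 | h3
      · exact h1 h3
      · exact h3 q' h2 (down_meets _ _ hq _ hq')
    obtain ⟨t, ht, s, hs, hs'⟩ := extend_pos q' γ α n hno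
    exact ⟨t, ht, s, meets_of_le (N := {p : Cond e v | Atom.pos γ n s ∈ p.s}) hs le_rfl, mem_beginsF.2 hs'⟩
  · intro q _ hq
    obtain ⟨r, hr, k, hrk⟩ := hf' α q
    refine ⟨r, hr, ?_⟩
    rcases hf α k with h3 | h3
    · exact down_meets _ _ h3 _ hrk
    · exfalso
      obtain ⟨n, hn⟩ := exists_freshPos r.s
      have hval : Valid e v (insert (Atom.neg γ α k n) r.s) := by
        refine ⟨?_, ?_, ?_⟩
        · intro β j b b' h h'
          simp only [Finset.mem_insert, reduceCtorEq, false_or] at h h'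
          exact r.valid.f1 _ _ _ _ h h'
        · intro γ' β k' n' h
          simp only [Finset.mem_insert, Atom.neg.injEq] at h
          rcases h with ⟨rfl, rfl, rfl, rfl⟩ | h
          · constructor
            · rw [hγ']
              simp only [decide_eq_false_iff_not]
              intro h4
              exact h3 _ le_rfl h4
            · rw [hγ]
              exact Finset.Subset.trans hrk (Finset.subset_insert _ _)
          · have h1 := r.valid.v2 _ _ _ _ h
            exact ⟨h1.1, h1.2.trans (Finset.subset_insert _ _)⟩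
        · intro γ' β k' n' s h h'
          simp only [Finset.mem_insert, reduceCtorEq, false_or] at h'
          simp only [Finset.mem_insert, Atom.neg.injEq] at h
          rcases h with ⟨rfl, rfl, rfl, rfl⟩ | h
          · exact absurd h' (hn _ _)
          · obtain ⟨j, c, hj, hx⟩ := r.valid.v3 _ _ _ _ _ h h'
            exact ⟨j, c, hj, Finset.mem_insert_of_mem hx⟩
      let r' : Cond e v := ⟨_, hval⟩
      have hr' : r' ≤ r := Finset.subset_insert _ _
      have h5 := mem_fex.1 (hq n) r' (hr'.trans hr)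
      obtain ⟨t, ht, s, h6, h7⟩ := h5
      obtain ⟨t', ht', w, hw, htw⟩ := h6 t le_rfl
      have h8 : Atom.pos γ n s ∈ t'.s := htw hw
      have h9 : Atom.neg γ α k n ∈ t'.s := ht' (ht (Finset.mem_insert_self _ _))
      obtain ⟨i, b, hib, hx⟩ := t'.valid.v3 _ _ _ _ _ h9 h8
      have h10 := t'.valid.f1 _ _ _ _ hx (ht' (mem_beginsF.1 h7 i b hib))
      cases b <;> simp at h10

end Pool.Agent.N640.DS
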