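import Mathlib
import Pool.Agent.N640.DS.QSet

set_option autoImplicit false

/-!
# The square of the set of the generic reals is not a Delta-set
-/

open Cardinal Set

namespace Pool.Agent.N640.DS

open Pool.Agent.Helper292.SP (fnot fand fall fimp fiff fex fground meets IsFun)

section

variable {I Γ : Type} {e : Γ → I → ℕ → Finset (Atom I Γ)} {v : Γ → I → ℕ → Bool}

/-- the indices which occur in an atom -/
def places : Atom I Γ → Set (I ⊕ Γ)
  | .x α _ _ => {Sum.inl α}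
  | .pos γ _ _ => {Sum.inr γ}
  | .neg γ α _ _ => {Sum.inr γ, Sum.inl α}

theorem countable_places (a : Atom I Γ) : (places a).Countable := by
  rcases a with ⟨α, i, b⟩ | ⟨γ, n, s⟩ | ⟨γ, α, k, n⟩
  · exact countable_singleton _
  · exact countable_singleton _
  · exact (countable_singleton _).insert _

/-- the indices needed for the negative information about a real and a sequence of open sets -/
def need (e : Γ → I → ℕ → Finset (Atom I Γ)) : I ⊕ Γ → I ⊕ Γ → ℕ → Set (I ⊕ Γ)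
  | .inr γ, .inl α, k => ⋃ a ∈ (e γ α k : Set (Atom I Γ)), places a
  | _, _, _ => ∅

theorem countable_need (y z : I ⊕ Γ) (k : ℕ) : (need e y z k).Countable := by
  rcases y with α | γ <;> rcases z with β | δ
  · exact countable_empty
  · exact countable_empty
  · exact Countable.biUnion (e γ β k).countable_toSet fun a _ => countable_places a
  · exact countable_empty

theorem exists_closed (e : Γ → I → ℕ → Finset (Atom I Γ)) {S : Set (I ⊕ Γ)} (hS : S.Countable) :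
    ∃ B, S ⊆ B ∧ B.Countable ∧ ∀ γ α k, Sum.inr γ ∈ B → Sum.inl α ∈ B →
      ∀ a ∈ e γ α k, places a ⊆ B := by
  let st : Set (I ⊕ Γ) → Set (I ⊕ Γ) := fun B => B ∪ ⋃ y ∈ B, ⋃ z ∈ B, ⋃ k, need e y z k
  let f : ℕ → Set (I ⊕ Γ) := fun n => st^[n] S
  have hf : ∀ n, f (n + 1) = st (f n) := fun n => Function.iterate_succ_apply' _ _ _
  have hmono : Monotone f := by
    apply monotone_nat_of_le_succ
    intro n
    rw [hf]
    exact subset_union_left
  refine ⟨⋃ n, f n, fun y hy => mem_iUnion.2 ⟨0, hy⟩, ?_, ?_⟩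
  · apply countable_iUnion
    intro n
    induction n with
    | zero => exact hS
    | succ n ih =>
      rw [hf]
      exact ih.union (ih.biUnion fun y _ => ih.biUnion fun z _ =>
        countable_iUnion fun k => countable_need y z k)
  · intro γ α k hγ hα a ha y hy
    obtain ⟨n, hn⟩ := mem_iUnion.1 hγ
    obtain ⟨m, hm⟩ := mem_iUnion.1 hα
    refine mem_iUnion.2 ⟨max n m + 1, ?_⟩
    rw [hf]
    refine Or.inr (mem_iUnion₂.2 ⟨_, hmono (le_max_left n m) hn, mem_iUnion₂.2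
      ⟨_, hmono (le_max_right n m) hm, mem_iUnion.2 ⟨k, ?_⟩⟩⟩)
    exact mem_iUnion₂.2 ⟨a, ha, hy⟩

end

section

variable {A Γ : Type} [LinearOrder A]
  {e : Γ → A × Bool → ℕ → Finset (Atom (A × Bool) Γ)} {v : Γ → A × Bool → ℕ → Bool}

theorem exists_infinite {J : Set A} (hJ : ¬ J.Countable) :
    ∃ η ∈ J, {ξ | ξ ∈ J ∧ ξ < η}.Infinite := by
  by_contra hcon
  simp only [not_exists, not_and, Set.not_infinite] at hcon
  apply hJ
  have hinj : InjOn (fun η => {ξ | ξ ∈ J ∧ ξ < η}.ncard) J := by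
    have key : ∀ η ∈ J, ∀ η' ∈ J, η < η' →
        {ξ | ξ ∈ J ∧ ξ < η}.ncard < {ξ | ξ ∈ J ∧ ξ < η'}.ncard := by
      intro η hη η' hη' hlt
      apply Set.ncard_lt_ncard _ (hcon η' hη')
      have hsub : {ξ | ξ ∈ J ∧ ξ < η} ⊆ {ξ | ξ ∈ J ∧ ξ < η'} :=
        fun ξ hξ => ⟨hξ.1, hξ.2.trans hlt⟩
      exact (Set.ssubset_iff_of_subset hsub).2 ⟨η, ⟨hη, hlt⟩, fun h => lt_irrefl _ h.2⟩
    intro η hη η' hη' heq
    rcases lt_trichotomy η η' with h | h | h
    · exact absurd heq (key _ hη _ hη' h).ne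
    · exact h
    · exact absurd heq (key _ hη' _ hη h).ne'
  exact MapsTo.countable_of_injOn (mapsTo_univ _ _) hinj (to_countable univ)

/-- The amalgamation: the condition `r` (which is stronger than `p` and than a condition with the
same type at `β'` as `p` has at `β`) gives a condition below `p` with the small part of `r`. -/
theorem amalgamate {I Γ : Type} {e : Γ → I → ℕ → Finset (Atom I Γ)} {v : Γ → I → ℕ → Bool}
    {B : Set (I ⊕ Γ)}
    (hcl : ∀ γ α k, Sum.inr γ ∈ B → Sum.inl α ∈ B → ∀ a ∈ e γ α k, places a ⊆ B)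
    {p q r : Cond e v} {β β' : I} (hβ : Sum.inl β ∉ B)
    (h1 : ∀ i b, Atom.x β i b ∈ p.s → Atom.x β' i b ∈ q.s)
    (h2 : ∀ γ k n, Sum.inr γ ∈ B → Atom.neg γ β k n ∈ p.s → ∃ k', Atom.neg γ β' k' n ∈ q.s)
    (hrp : r ≤ p) (hrq : r ≤ q) :
    ∃ t : Cond e v, t ≤ p ∧ (∀ a ∈ r.s, places a ⊆ B → a ∈ t.s) ∧
      (∀ α i b, α ≠ β → Atom.x α i b ∈ r.s → Atom.x α i b ∈ t.s) ∧
      ∀ i b, Atom.x β' i b ∈ r.s → Atom.x β i b ∈ t.s := by
  classical
  let K : Atom I Γ → Prop := fun a => match a with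
    | .x α i b => (α = β ∧ Atom.x β' i b ∈ r.s) ∨ (α ≠ β ∧ Atom.x α i b ∈ r.s)
    | .pos γ n s => Atom.pos γ n s ∈ p.s ∨ (Atom.pos γ n s ∈ r.s ∧ Sum.inr γ ∈ B)
    | .neg γ α k n => Atom.neg γ α k n ∈ p.s ∨
        (Atom.neg γ α k n ∈ r.s ∧ Sum.inr γ ∈ B ∧ Sum.inl α ∈ B)
  let ren : Atom I Γ → Atom I Γ := fun a => match a with
    | .x _ i b => .x β i b
    | .pos γ n s => .pos γ n s
    | .neg γ α k n => .neg γ α k n
  let Q : Finset (Atom I Γ) := (r.s ∪ r.s.image ren).filter K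
  have hQ : ∀ a, a ∈ Q ↔ K a := by
    intro a
    simp only [Q, Finset.mem_filter, Finset.mem_union, Finset.mem_image, and_iff_right_iff_imp]
    rcases a with ⟨α, i, b⟩ | ⟨γ, n, s⟩ | ⟨γ, α, k, n⟩
    · rintro (⟨rfl, h⟩ | ⟨_, h⟩)
      · exact Or.inr ⟨_, h, rfl⟩
      · exact Or.inl h
    · rintro (h | ⟨h, _⟩)
      · exact Or.inl (hrp h)
      · exact Or.inl h
    · rintro (h | ⟨h, _⟩)
      · exact Or.inl (hrp h)
      · exact Or.inl h
  have L1 : ∀ a ∈ p.s, K a := by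
    intro a ha
    rcases a with ⟨α, i, b⟩ | ⟨γ, n, s⟩ | ⟨γ, α, k, n⟩
    · by_cases hα : α = β
      · subst hα
        exact Or.inl ⟨rfl, hrq (h1 _ _ ha)⟩
      · exact Or.inr ⟨hα, hrp ha⟩
    · exact Or.inl ha
    · exact Or.inl ha
  have L2 : ∀ a ∈ r.s, places a ⊆ B → K a := by
    intro a ha hpl
    rcases a with ⟨α, i, b⟩ | ⟨γ, n, s⟩ | ⟨γ, α, k, n⟩
    · refine Or.inr ⟨?_, ha⟩
      rintro rfl
      exact hβ (hpl rfl)
    · exact Or.inr ⟨ha, hpl rfl⟩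
    · exact Or.inr ⟨ha, hpl (Or.inl rfl), hpl (Or.inr rfl)⟩
  have hval : Valid e v Q := by
    refine ⟨?_, ?_, ?_⟩
    · intro α i b b' h h'
      rw [hQ] at h h'
      rcases h with ⟨h3, h⟩ | ⟨h3, h⟩ <;> rcases h' with ⟨h3', h'⟩ | ⟨h3', h'⟩
      · exact r.valid.f1 _ _ _ _ h h'
      · exact absurd h3 h3'
      · exact absurd h3' h3
      · exact r.valid.f1 _ _ _ _ h h'
    · intro γ α k n h
      rw [hQ] at h
      rcases h with h | ⟨h, hγ, hα⟩
      · have h3 := p.valid.v2 _ _ _ _ h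
        refine ⟨h3.1, fun a ha => ?_⟩
        rw [hQ]
        exact L1 a (h3.2 ha)
      · have h3 := r.valid.v2 _ _ _ _ h
        refine ⟨h3.1, fun a ha => ?_⟩
        rw [hQ]
        exact L2 a (h3.2 ha) (hcl γ α k hγ hα a ha)
    · intro γ α k n s h h'
      rw [hQ] at h h'
      by_cases hα : α = β
      · subst hα
        rcases h with h | ⟨_, _, h⟩
        · rcases h' with h' | ⟨h', hγ⟩
          · obtain ⟨i, b, hib, hx⟩ := p.valid.v3 _ _ _ _ _ h h'
            refine ⟨i, b, hib, ?_⟩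
            rw [hQ]
            exact L1 _ hx
          · obtain ⟨k', hk'⟩ := h2 γ k n hγ h
            obtain ⟨i, b, hib, hx⟩ := r.valid.v3 _ _ _ _ _ (hrq hk') h'
            refine ⟨i, b, hib, ?_⟩
            rw [hQ]
            exact Or.inl ⟨rfl, hx⟩
        · exact absurd h hβ
      · have h3 : Atom.neg γ α k n ∈ r.s := by
          rcases h with h | h
          · exact hrp h
          · exact h.1
        have h4 : Atom.pos γ n s ∈ r.s := by
          rcases h' with h' | h'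
          · exact hrp h'
          · exact h'.1
        obtain ⟨i, b, hib, hx⟩ := r.valid.v3 _ _ _ _ _ h3 h4
        refine ⟨i, b, hib, ?_⟩
        rw [hQ]
        exact Or.inr ⟨hα, hx⟩
  refine ⟨⟨Q, hval⟩, ?_, ?_, ?_, ?_⟩
  · intro a ha
    exact (hQ a).2 (L1 a ha)
  · intro a ha hpl
    exact (hQ a).2 (L2 a ha hpl)
  · intro α i b hα h
    exact (hQ _).2 (Or.inr ⟨hα, h⟩)
  · intro i b h
    exact (hQ _).2 (Or.inl ⟨rfl, h⟩)

theorem notDelta (hA : ¬ (univ : Set A).Countable) (c : A → A → ℕ)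
    (hc : ∀ η, InjOn (fun ξ => c ξ η) (Iio η))
    (W : ℕ → List Bool → List Bool → Set (Cond e v)) (p : Cond e v) :
    p ∈ fnot (fall fun ξ : A => fall fun η : A =>
        fand (InOpenF W (c ξ η) (X e v (ξ, true)) (X e v (η, false)))
          (fex fun m => fall fun n => fall fun _ : m ≤ n =>
            fnot (InOpenF W n (X e v (ξ, true)) (X e v (η, false))))) := by
  classical
  rw [mem_fnot]
  intro p0 _ hp0
  have g1 : ∀ n u w, ∃ C ⊆ {r : Cond e v | ∃ t ∈ W n u w, r ≤ t}, C.Countable ∧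
      ∀ d ∈ {r : Cond e v | ∃ t ∈ W n u w, r ≤ t}, ∃ a ∈ C, ∃ r, r ≤ d ∧ r ≤ a :=
    fun n u w => exists_predense (P := Cond e v) ccc _
  choose C hC hCc hCp using g1
  have hS : (⋃ n, ⋃ u, ⋃ w, ⋃ a ∈ C n u w, ⋃ b ∈ (a.s : Set (Atom (A × Bool) Γ)),
      places b).Countable :=
    countable_iUnion fun n => countable_iUnion fun u => countable_iUnion fun w =>
      (hCc n u w).biUnion fun a _ => Countable.biUnion a.s.countable_toSet fun b _ =>
        countable_places b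
  obtain ⟨B, hSB, hB, hcl⟩ := exists_closed e hS
  have hJ : ¬ {ξ : A | Sum.inl (ξ, false) ∉ B}.Countable := by
    intro h
    apply hA
    have h1 : {ξ : A | (Sum.inl (ξ, false) : (A × Bool) ⊕ Γ) ∈ B}.Countable :=
      hB.preimage_of_injOn (f := fun ξ : A => (Sum.inl (ξ, false) : (A × Bool) ⊕ Γ))
        (fun a _ b _ hab => by simpa using hab)
    refine (h.union h1).mono fun ξ _ => ?_
    by_cases h2 : (Sum.inl (ξ, false) : (A × Bool) ⊕ Γ) ∈ B
    · exact Or.inr h2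
    · exact Or.inl h2
  have g2 : ∀ ξ, ∃ q ≤ p0, ∃ m, q ∈ fall fun n => fall fun _ : m ≤ n =>
      fnot (InOpenF W n (X e v (ξ, true)) (X e v (ξ, false))) :=
    fun ξ => mem_fex.1 (hp0 ξ ξ).2 p0 le_rfl
  choose q hq m hm using g2
  obtain ⟨m0, hJ1⟩ := exists_fiber hJ m (T := univ) (to_countable _) (fun _ _ => mem_univ _)
  obtain ⟨T1, hJ2⟩ := exists_fiber hJ1
    (fun ξ => {ib : ℕ × Bool | Atom.x (ξ, false) ib.1 ib.2 ∈ (q ξ).s})
    (T := {t | t.Finite ∧ t ⊆ univ})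
    (Set.countable_setOf_finite_subset (to_countable univ)) (by
      intro ξ _
      refine ⟨?_, subset_univ _⟩
      refine Set.Finite.preimage (f := fun ib : ℕ × Bool =>
        (Atom.x (ξ, false) ib.1 ib.2 : Atom (A × Bool) Γ)) ?_ (q ξ).s.finite_toSet
      intro a _ b _ hab
      simp only [Atom.x.injEq, true_and] at hab
      exact Prod.ext hab.1 hab.2)
  obtain ⟨T2, hJ3⟩ := exists_fiber hJ2
    (fun ξ => {γn : Γ × ℕ | Sum.inr γn.1 ∈ B ∧ ∃ k, Atom.neg γn.1 (ξ, false) k γn.2 ∈ (q ξ).s})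
    (T := {t | t.Finite ∧ t ⊆ {γn : Γ × ℕ | Sum.inr γn.1 ∈ B}})
    (Set.countable_setOf_finite_subset (by
      have h1 : {γ : Γ | (Sum.inr γ : (A × Bool) ⊕ Γ) ∈ B}.Countable :=
        hB.preimage_of_injOn (f := fun γ : Γ => (Sum.inr γ : (A × Bool) ⊕ Γ))
          (fun a _ b _ hab => by simpa using hab)
      refine (h1.prod (to_countable (univ : Set ℕ))).mono ?_
      intro γn h
      exact ⟨h, mem_univ _⟩)) (by
      intro ξ _
      refine ⟨?_, fun γn h => h.1⟩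
      have h1 : (⋃ a ∈ ((q ξ).s : Set (Atom (A × Bool) Γ)),
          {γn : Γ × ℕ | ∃ k, a = Atom.neg γn.1 (ξ, false) k γn.2}).Finite := by
        refine Set.Finite.biUnion (q ξ).s.finite_toSet fun a _ => ?_
        apply Set.Subsingleton.finite
        rintro ⟨γ, n⟩ ⟨k, hk⟩ ⟨γ', n'⟩ ⟨k', hk'⟩
        rw [hk] at hk'
        simp only [Atom.neg.injEq] at hk'
        exact Prod.ext hk'.1 hk'.2.2.2
      refine h1.subset ?_
      rintro γn ⟨_, k, hk⟩
      exact mem_iUnion₂.2 ⟨_, hk, k, rfl⟩)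
  obtain ⟨J, hJsub, hJu, hJv⟩ := knaster q hJ3
  obtain ⟨η, hη, hinf⟩ := exists_infinite hJu
  obtain ⟨ξ, hξ, hle⟩ : ∃ ξ, (ξ ∈ J ∧ ξ < η) ∧ m0 ≤ c ξ η := by
    by_contra hcon
    push Not at hcon
    apply hinf
    refine Set.Finite.of_finite_image (f := fun ξ => c ξ η) ((Set.finite_Iio m0).subset ?_) ?_
    · rintro _ ⟨ξ, hξ, rfl⟩
      exact hcon ξ hξ
    · intro a ha b hb hab
      exact hc η ha.2 hb.2 hab
  obtain ⟨⟨⟨hξB, hmξ⟩, hT1ξ⟩, hT2ξ⟩ := hJsub hξ.1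
  obtain ⟨⟨⟨hηB, hmη⟩, hT1η⟩, hT2η⟩ := hJsub hη
  have hne : ξ ≠ η := hξ.2.ne
  let r : Cond e v := ⟨_, hJv ξ hξ.1 η hη⟩
  have hrξ : r ≤ q ξ := Finset.subset_union_left
  have hrη : r ≤ q η := Finset.subset_union_right
  obtain ⟨r1, hr1, u, hr2⟩ := mem_fex.1 (hp0 ξ η).1 r (hrξ.trans (hq ξ))
  obtain ⟨r2, hr2', w, hW, hu, hw⟩ := mem_fex.1 hr2 r1 le_rfl
  obtain ⟨r3, hr3, t, ht, hr3t⟩ := hW r2 le_rfl
  obtain ⟨a, ha, r4, hr4, hr4a⟩ := hCp (c ξ η) u w r3 ⟨t, ht, hr3t⟩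
  have h41 : r4 ≤ r2 := hr4.trans hr3
  have h4 : r4 ≤ r := (h41.trans hr2').trans hr1
  obtain ⟨z, hz1, hz2, hz3, hz4⟩ := amalgamate (β := (ξ, false)) (β' := (η, false)) hcl hξB
    (p := q ξ) (q := q η) (r := r4) (by
      intro i b h
      have h5 : (i, b) ∈ {ib : ℕ × Bool | Atom.x (η, false) ib.1 ib.2 ∈ (q η).s} := by
        rw [hT1η, ← hT1ξ]
        exact h
      exact h5) (by
      intro γ k n hγ h
      have h5 : (γ, n) ∈ {γn : Γ × ℕ | Sum.inr γn.1 ∈ B ∧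
          ∃ k, Atom.neg γn.1 (η, false) k γn.2 ∈ (q η).s} := by
        rw [hT2η, ← hT2ξ]
        exact ⟨hγ, k, h⟩
      exact h5.2) (h4.trans hrξ) (h4.trans hrη)
  have hza : z ≤ a := by
    intro b hb
    refine hz2 b (hr4a hb) ?_
    refine Subset.trans ?_ hSB
    intro y hy
    exact mem_iUnion.2 ⟨c ξ η, mem_iUnion.2 ⟨u, mem_iUnion.2 ⟨w, mem_iUnion₂.2 ⟨a, ha,
      mem_iUnion₂.2 ⟨b, hb, hy⟩⟩⟩⟩⟩
  obtain ⟨t', ht', hat⟩ := hC _ _ _ ha
  have hzW : z ∈ meets (W (c ξ η) u w) := meets_of_le ht' (hza.trans hat)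
  have hzu : z ∈ BeginsF u (X e v (ξ, true)) := by
    rw [mem_beginsF]
    intro i b hib
    exact hz3 _ _ _ (by simp) (h41 (mem_beginsF.1 hu i b hib))
  have hzw : z ∈ BeginsF w (X e v (ξ, false)) := by
    rw [mem_beginsF]
    intro i b hib
    exact hz4 _ _ (h41 (mem_beginsF.1 hw i b hib))
  refine hm ξ (c ξ η) (by rw [hmξ]; exact hle) z hz1 ?_
  refine mem_fex.2 fun z' hz' => ⟨z', le_rfl, u, mem_fex.2 fun z'' hz'' => ⟨z'', le_rfl, w, ?_⟩⟩
  have h6 : z'' ≤ z := hz''.trans hz'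
  exact ⟨down_meets _ _ hzW _ h6, down_fall (fun _ => down_fiff _ _) _ hzu _ h6,
    down_fall (fun _ => down_fiff _ _) _ hzw _ h6⟩

end

end Pool.Agent.N640.DS
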