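import Mathlib
import Pool.Agent.N640.DS.Square

set_option autoImplicit false

/-!
# The principle can be forced
-/

open Cardinal Set

namespace Pool.Agent.N640.DS

open Pool.Agent.Helper292.SP (fnot fand fall fimp fiff fex fground meets IsFun)

/-! ### The index set of the sequences of open sets -/

/-- the atoms inject into a sum of products -/
def code {I Γ : Type} : Atom I Γ → (I × ℕ × Bool) ⊕ (Γ × ℕ × List Bool) ⊕ (Γ × I × ℕ × ℕ)
  | .x α i b => .inl (α, i, b)
  | .pos γ n s => .inr (.inl (γ, n, s))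
  | .neg γ α k n => .inr (.inr (γ, α, k, n))

theorem code_injective {I Γ : Type} : Function.Injective (code (I := I) (Γ := Γ)) := by
  rintro (⟨α, i, b⟩ | ⟨γ, n, s⟩ | ⟨γ, α, k, n⟩) (⟨α', i', b'⟩ | ⟨γ', n', s'⟩ | ⟨γ', α', k', n'⟩) h
  all_goals simp_all [code]

theorem mk_atom_le {I Γ : Type} {μ : Cardinal.{0}} (hμ : ℵ₀ ≤ μ) (hI : #I ≤ μ) (hΓ : #Γ ≤ μ) :
    #(Atom I Γ) ≤ μ := by
  have hN : #ℕ ≤ μ := by rw [Cardinal.mk_nat]; exact hμ
  have hB : #Bool ≤ μ := by
    rw [Cardinal.mk_bool]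
    exact (Cardinal.nat_lt_aleph0 2).le.trans hμ
  have hL : #(List Bool) ≤ μ := (Cardinal.mk_le_aleph0).trans hμ
  have hmul : ∀ X Y : Type, #X ≤ μ → #Y ≤ μ → #(X × Y) ≤ μ := by
    intro X Y hX hY
    rw [Cardinal.mk_prod, Cardinal.lift_id, Cardinal.lift_id]
    exact (mul_le_mul' hX hY).trans (Cardinal.mul_eq_self hμ).le
  have hadd : ∀ X Y : Type, #X ≤ μ → #Y ≤ μ → #(X ⊕ Y) ≤ μ := by
    intro X Y hX hY
    rw [Cardinal.mk_sum, Cardinal.lift_id, Cardinal.lift_id]
    exact (add_le_add hX hY).trans (Cardinal.add_eq_self hμ).le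
  refine (Cardinal.mk_le_of_injective code_injective).trans ?_
  exact hadd _ _ (hmul _ _ hI (hmul _ _ hN hB)) (hadd _ _ (hmul _ _ hΓ (hmul _ _ hN hL))
    (hmul _ _ hΓ (hmul _ _ hI (hmul _ _ hN hN))))

theorem exists_universal (I : Type) [Infinite I] :
    ∃ (Γ : Type) (e : Γ → I → ℕ → Finset (Atom I Γ)) (v : Γ → I → ℕ → Bool),
      ∀ (e' : I → ℕ → Finset (Atom I Γ)) (v' : I → ℕ → Bool), ∃ γ, e γ = e' ∧ v γ = v' := by
  let Γ : Type := I → Bool
  have hI : ℵ₀ ≤ #I := Cardinal.aleph0_le_mk I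
  have hΓ : #Γ = 2 ^ #I := by simp [Γ]
  have hμ : ℵ₀ ≤ (2 : Cardinal.{0}) ^ #I := hI.trans (Cardinal.cantor #I).le
  have hat : #(Atom I Γ) ≤ 2 ^ #I := mk_atom_le hμ (Cardinal.cantor #I).le hΓ.le
  have hinf : Infinite (Atom I Γ) := by
    obtain ⟨α⟩ : Nonempty I := inferInstance
    exact Infinite.of_injective (fun i : ℕ => Atom.x α i true) (fun i j h => by simpa using h)
  have hfin : #(Finset (Atom I Γ) × Bool) ≤ 2 ^ #I := by
    rw [Cardinal.mk_prod, Cardinal.lift_id, Cardinal.lift_id, Cardinal.mk_finset_of_infinite]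
    refine (mul_le_mul' hat ?_).trans (Cardinal.mul_eq_self hμ).le
    rw [Cardinal.mk_bool]
    exact (Cardinal.nat_lt_aleph0 2).le.trans hμ
  have hT : #(I → ℕ → Finset (Atom I Γ) × Bool) ≤ #Γ := by
    rw [hΓ]
    have h1 : #(I → ℕ → Finset (Atom I Γ) × Bool) =
        (#(Finset (Atom I Γ) × Bool) ^ (ℵ₀ : Cardinal.{0})) ^ #I := by
      simp only [Cardinal.mk_pi, Cardinal.prod_const, Cardinal.lift_id, Cardinal.mk_nat]
    rw [h1, ← Cardinal.power_mul]
    calc #(Finset (Atom I Γ) × Bool) ^ (ℵ₀ * #I) ≤ (2 ^ #I) ^ (ℵ₀ * #I) :=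
          Cardinal.power_le_power_right hfin
      _ = 2 ^ #I := by
          rw [← Cardinal.power_mul, Cardinal.aleph0_mul_eq hI, Cardinal.mul_eq_self hI]
  obtain ⟨g⟩ := (Cardinal.le_def _ _).1 hT
  have : Nonempty (I → ℕ → Finset (Atom I Γ) × Bool) := ⟨fun _ _ => (∅, true)⟩
  refine ⟨Γ, fun γ α k => (Function.invFun g γ α k).1, fun γ α k => (Function.invFun g γ α k).2, ?_⟩
  intro e' v'
  obtain ⟨γ, hγ⟩ := Function.invFun_surjective g.injective (fun α k => (e' α k, v' α k))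
  refine ⟨γ, ?_, ?_⟩
  · funext α k
    show (Function.invFun g γ α k).1 = e' α k
    rw [hγ]
  · funext α k
    show (Function.invFun g γ α k).2 = v' α k
    rw [hγ]

/-! ### The first uncountable ordinal -/

/-- The well-ordered set of the countable ordinals (order type `ω₁`). -/
abbrev Om : Type := (ℵ₁ : Cardinal.{0}).ord.ToType

theorem Om_uncountable : ¬ (univ : Set Om).Countable := by
  rw [Cardinal.countable_iff_lt_aleph_one]
  simp

theorem Om_Iio (a : Om) : (Iio a).Countable := by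
  rw [Cardinal.countable_iff_lt_aleph_one]
  exact Cardinal.mk_Iio_ord_toType a

theorem exists_c : ∃ c : Om → Om → ℕ, ∀ η, InjOn (fun ξ => c ξ η) (Iio η) := by
  have h := fun η : Om => Set.countable_iff_exists_injOn.1 (Om_Iio η)
  choose f hf using h
  exact ⟨fun ξ η => f η ξ, hf⟩

/-- In the extension there is no function from the natural numbers onto the ground model `ω₁`;
so the ground model `ω₁` is still the first uncountable cardinal. -/
def OmegaOnePreserved (P : Type) [Preorder P] : Set P :=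
  fnot (fex fun R : ℕ → Om → Set P => fand (IsFun R) (fall fun a : Om => fex fun n : ℕ =>
    meets (R n a)))

theorem omegaOnePreserved {I Γ : Type} {e : Γ → I → ℕ → Finset (Atom I Γ)}
    {v : Γ → I → ℕ → Bool} (p : Cond e v) : p ∈ OmegaOnePreserved (Cond e v) := by
  classical
  intro q _ hq
  obtain ⟨r, _, R, hR⟩ := mem_fex.1 hq q le_rfl
  have h1 : ∀ a : Om, ∃ t ≤ r, ∃ n, t ∈ meets (R n a) := fun a => mem_fex.1 (hR.2 a) r le_rfl
  choose t ht n hn using h1
  obtain ⟨n0, hn0⟩ := exists_fiber Om_uncountable n (T := univ) (to_countable _)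
    (fun _ _ => mem_univ _)
  obtain ⟨J, hJ, hJu, hJv⟩ := knaster t hn0
  apply hJu
  apply Set.Subsingleton.countable
  intro a ha b hb
  let z : Cond e v := ⟨_, hJv a ha b hb⟩
  have hza : z ≤ t a := Finset.subset_union_left
  have hzb : z ≤ t b := Finset.subset_union_right
  have h2 := down_meets _ _ (hn a) _ hza
  have h3 := down_meets _ _ (hn b) _ hzb
  rw [(hJ ha).2] at h2
  rw [(hJ hb).2] at h3
  obtain ⟨w, _, hw⟩ := mem_fimp.1 (hR.1.2 n0 a b) z (hza.trans (ht a)) ⟨h2, h3⟩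
  exact hw

/-- The principle can be forced. -/
theorem exists_forcing : ∃ (P : Type) (_ : Preorder P) (c : Om → Om → ℕ), Nonempty P ∧
    ∀ p : P, p ∈ OmegaOnePreserved P ∧ p ∈ PrincipleHolds P Om c := by
  have hinf : Infinite Om := by
    rw [← Set.infinite_univ_iff]
    exact fun h => Om_uncountable h.countable
  obtain ⟨Γ, e, v, huniv⟩ := exists_universal (Om × Bool)
  obtain ⟨c, hc⟩ := exists_c
  refine ⟨Cond e v, inferInstance, c, inferInstance, fun p => ⟨omegaOnePreserved p, ?_⟩⟩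
  refine mem_fex.2 fun q _ => ⟨q, le_rfl, X e v, ?_, ?_, ?_⟩
  · intro α β h
    exact distinct q α β h
  · intro Y
    obtain ⟨U, hU⟩ := qset huniv Y
    exact mem_fex.2 fun r _ => ⟨r, le_rfl, U, hU r⟩
  · intro W
    exact notDelta Om_uncountable c hc W q

end Pool.Agent.N640.DS
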