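import Mathlib
import Pool.Agent.N640.DS.Defs

set_option autoImplicit false

/-!
# From the principle to sets of reals
-/

open Cardinal Set

namespace Pool.Agent.N640.DS

/-- Every subset of `X` is a relative `G_δ` in `X`. -/
def IsQSet (X : Set ℝ) : Prop := ∀ Y ⊆ X, ∃ G : Set ℝ, IsGδ G ∧ Y = X ∩ G

/-- Every partition of `Z` into countably many sets has a point-finite open expansion. -/
def IsDeltaSpace (Z : Type) [TopologicalSpace Z] : Prop :=
  ∀ D : ℕ → Set Z, (∀ m n, m ≠ n → Disjoint (D m) (D n)) → (⋃ n, D n) = Set.univ →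
    ∃ U : ℕ → Set Z, (∀ n, IsOpen (U n)) ∧ (∀ n, D n ⊆ U n) ∧ ∀ z, {n | z ∈ U n}.Finite

theorem IsQSet.isDeltaSpace {X : Set ℝ} (h : IsQSet X) : IsDeltaSpace X := by
  intro D hD hcov
  let E : ℕ → Set ℝ := fun n => {y | ∃ hy : y ∈ X, ∃ k, n ≤ k ∧ (⟨y, hy⟩ : X) ∈ D k}
  have h1 : ∀ n, ∃ G : Set ℝ, IsGδ G ∧ E n = X ∩ G := fun n => h (E n) fun y hy => hy.1
  choose G hG hEG using h1
  have h2 : ∀ n, ∃ f : ℕ → Set ℝ, (∀ k, IsOpen (f k)) ∧ G n = ⋂ k, f k :=
    fun n => isGδ_iff_eq_iInter_nat.1 (hG n)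
  choose f hf hGf using h2
  refine ⟨fun n => Subtype.val ⁻¹' (⋂ i ∈ Iic n, ⋂ k ∈ Iic n, f i k), ?_, ?_, ?_⟩
  · intro n
    refine IsOpen.preimage continuous_subtype_val ?_
    exact (finite_Iic n).isOpen_biInter fun i _ => (finite_Iic n).isOpen_biInter fun k _ => hf i k
  · intro n z hz
    refine mem_iInter₂.2 fun i hi => mem_iInter₂.2 fun k _ => ?_
    have h3 : z.1 ∈ E i := ⟨z.2, n, hi, hz⟩
    rw [hEG, hGf] at h3
    exact mem_iInter.1 h3.2 k
  · intro z
    have h3 : z ∈ ⋃ n, D n := by rw [hcov]; exact mem_univ _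
    obtain ⟨j, hj⟩ := mem_iUnion.1 h3
    have h4 : z.1 ∉ E (j + 1) := by
      rintro ⟨_, k, hk, hz⟩
      exact Set.disjoint_left.1 (hD j k (by omega)) hj hz
    have h5 : ∃ k, z.1 ∉ f (j + 1) k := by
      by_contra hcon
      push Not at hcon
      apply h4
      rw [hEG, hGf]
      exact ⟨z.2, mem_iInter.2 hcon⟩
    obtain ⟨k, hk⟩ := h5
    refine (Set.finite_Iio (max (j + 1) k)).subset fun n hn => ?_
    by_contra hcon
    rw [mem_Iio, not_lt] at hcon
    apply hk
    exact mem_iInter₂.1 (mem_iInter₂.1 hn (j + 1) ((le_max_left _ _).trans hcon)) k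
      ((le_max_right _ _).trans hcon)

theorem realize {A : Type} {c : A → A → ℕ} (h : Principle A c) :
    ∃ X : Set ℝ, (#A = ℵ₁ → #X = ℵ₁) ∧ IsQSet X ∧ IsDeltaSpace X ∧ ¬ IsDeltaSpace (X × X) := by
  classical
  obtain ⟨x, hx1, hx2, hx3⟩ := h
  obtain ⟨φ, _, hφc, hφi⟩ := IsClosed.exists_nat_bool_injection_of_not_countable
    (α := ℝ) (C := univ) isClosed_univ Cardinal.not_countable_real
  have hφ : Topology.IsClosedEmbedding φ := hφc.isClosedEmbedding hφi
  let xb : A × Bool → ℕ → Bool := fun α i => decide (x α i)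
  have hbeg : ∀ s α, Begins s (x α) ↔ ∀ i : Fin s.length, xb α i = s.get i := by
    intro s α
    refine forall_congr' fun i => ?_
    simp only [xb]
    cases s.get i <;> simp
  let pt : A × Bool → ℝ := fun α => φ (xb α)
  have hpt : Function.Injective pt := by
    intro α β hαβ
    by_contra hne
    obtain ⟨i, hi⟩ := hx1 α β hne
    apply hi
    have h1 := congrFun (hφi hαβ) i
    simpa [xb] using h1
  -- the cones
  have hcone : ∀ s : List Bool, IsOpen {y : ℕ → Bool | ∀ i : Fin s.length, y i = s.get i} := by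
    intro s
    rw [Set.ofPred_forall]
    refine isOpen_iInter_of_finite fun i => ?_
    have h1 : IsOpen ((fun y : ℕ → Bool => y i) ⁻¹' {s.get i}) :=
      (isOpen_discrete _).preimage (continuous_apply (i : ℕ))
    exact h1
  have hnbhd : ∀ α (O : Set ℝ), IsOpen O → pt α ∈ O →
      ∃ s, Begins s (x α) ∧ ∀ β, Begins s (x β) → pt β ∈ O := by
    intro α O hO hα
    have h1 : IsOpen (φ ⁻¹' O) := hO.preimage hφc
    obtain ⟨F, u, hu, hsub⟩ := isOpen_pi_iff.1 h1 (xb α) hα
    let N : ℕ := F.sup id + 1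
    have hN : ∀ i ∈ F, i < N := fun i hi => Nat.lt_succ_of_le (Finset.le_sup (f := id) hi)
    refine ⟨(List.range N).map (xb α), ?_, ?_⟩
    · rw [hbeg]
      intro i
      simp
    · intro β hβ
      rw [hbeg] at hβ
      apply hsub
      intro i hi
      have h2 := hβ ⟨i, by simpa using hN i hi⟩
      simp only [List.get_eq_getElem, List.getElem_map, List.getElem_range] at h2
      rw [h2]
      exact (hu i hi).2
  have hQ : IsQSet (range pt) := by
    intro Y hY
    obtain ⟨U, hU⟩ := hx2 fun α => pt α ∈ Y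
    have h1 : ∀ n, IsOpen (⋃ s ∈ {s | U n s},
        {y : ℕ → Bool | ∀ i : Fin s.length, y i = s.get i}) :=
      fun n => isOpen_biUnion fun s _ => hcone s
    have h2 : ∀ n, ∃ O : Set ℝ, IsOpen O ∧ φ ⁻¹' O = (⋃ s ∈ {s | U n s},
        {y : ℕ → Bool | ∀ i : Fin s.length, y i = s.get i}) :=
      fun n => hφ.isInducing.isOpen_iff.1 (h1 n)
    choose O hO hO' using h2
    refine ⟨⋂ n, O n, IsGδ.iInter_of_isOpen hO, ?_⟩
    have h3 : ∀ α, pt α ∈ Y ↔ pt α ∈ ⋂ n, O n := by
      intro α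
      rw [hU α, mem_iInter]
      refine forall_congr' fun n => ?_
      have h4 : pt α ∈ O n ↔ xb α ∈ φ ⁻¹' O n := Iff.rfl
      rw [h4, hO', mem_iUnion₂]
      constructor
      · rintro ⟨s, hs, hs'⟩
        exact ⟨s, hs, (hbeg s α).1 hs'⟩
      · rintro ⟨s, hs, hs'⟩
        exact ⟨s, hs, (hbeg s α).2 hs'⟩
    ext y
    constructor
    · intro hy
      obtain ⟨α, rfl⟩ := hY hy
      exact ⟨mem_range_self α, (h3 α).1 hy⟩
    · rintro ⟨⟨α, rfl⟩, hy⟩
      exact (h3 α).2 hy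
  refine ⟨range pt, ?_, hQ, hQ.isDeltaSpace, ?_⟩
  · intro hA
    rw [Cardinal.mk_range_eq pt hpt, Cardinal.mk_prod, Cardinal.lift_id, Cardinal.lift_id, hA,
      Cardinal.mk_bool]
    exact Cardinal.mul_eq_left Cardinal.aleph0_lt_aleph_one.le
      ((Cardinal.nat_lt_aleph0 2).le.trans Cardinal.aleph0_lt_aleph_one.le) two_ne_zero
  · intro hΔ
    let Pt : A × Bool → range pt := fun α => ⟨pt α, mem_range_self α⟩
    let C : range pt × range pt → ℕ := fun z =>
      if h : ∃ ξη : A × A, z = (Pt (ξη.1, true), Pt (ξη.2, false)) then c h.choose.1 h.choose.2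
      else 0
    have hC : ∀ ξ η, C (Pt (ξ, true), Pt (η, false)) = c ξ η := by
      intro ξ η
      have h1 : ∃ ξη : A × A, (Pt (ξ, true), Pt (η, false)) =
          (Pt (ξη.1, true), Pt (ξη.2, false)) := ⟨(ξ, η), rfl⟩
      have h2 : C (Pt (ξ, true), Pt (η, false)) = c h1.choose.1 h1.choose.2 := dif_pos h1
      rw [h2]
      have h3 := h1.choose_spec
      rw [Prod.mk.injEq] at h3
      have h4 := hpt (congrArg Subtype.val h3.1)
      have h5 := hpt (congrArg Subtype.val h3.2)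
      rw [Prod.mk.injEq] at h4 h5
      rw [← h4.1, ← h5.1]
    obtain ⟨U, hUo, hUD, hUf⟩ := hΔ (fun n => {z : range pt × range pt | C z = n}) (by
      intro m n hmn
      rw [Set.disjoint_left]
      intro z hz hz'
      exact hmn (hz.symm.trans hz')) (by
      apply Set.eq_univ_of_forall
      intro z
      exact mem_iUnion.2 ⟨C z, rfl⟩)
    let W : ℕ → List Bool → List Bool → Prop := fun n u w =>
      ∀ α β, Begins u (x α) → Begins w (x β) → (Pt α, Pt β) ∈ U n
    have hW : ∀ n α β, InOpen W n (x α) (x β) ↔ (Pt α, Pt β) ∈ U n := by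
      intro n α β
      constructor
      · rintro ⟨u, w, h1, h2, h3⟩
        exact h1 α β h2 h3
      · intro h1
        obtain ⟨O1, O2, hO1, hO2, hm1, hm2, hsub⟩ := isOpen_prod_iff.1 (hUo n) _ _ h1
        obtain ⟨O1', hO1', rfl⟩ := isOpen_induced_iff.1 hO1
        obtain ⟨O2', hO2', rfl⟩ := isOpen_induced_iff.1 hO2
        obtain ⟨u, hu, hu'⟩ := hnbhd α O1' hO1' hm1
        obtain ⟨w, hw, hw'⟩ := hnbhd β O2' hO2' hm2
        exact ⟨u, w, fun α' β' h2 h3 => hsub ⟨hu' α' h2, hw' β' h3⟩, hu, hw⟩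
    apply hx3 W
    intro ξ η
    constructor
    · rw [hW]
      exact hUD _ (hC ξ η)
    · obtain ⟨m, hm⟩ := (hUf (Pt (ξ, true), Pt (η, false))).bddAbove
      refine ⟨m + 1, fun n hn h1 => ?_⟩
      rw [hW] at h1
      have := hm h1
      omega

end Pool.Agent.N640.DS
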